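import Pool.Agent.H90.STK.Stmts

/-!
# Sticky families of lines: the informations of the differences on the positions add up
-/

set_option autoImplicit false

namespace Pool.STK

open Finset Real
open Pool.Agent.H49.Ent Pool.Agent.H32.Dense

namespace SUT

/-- Nested floors. -/
lemma fl_det {m i j : ℕ} (hij : i ≤ j) {x y : Fin m → ℝ} (h : fl j x = fl j y) :
    fl i x = fl i y := by
  obtain ⟨k, rfl⟩ := Nat.exists_eq_add_of_le hij
  have key : ∀ a b : ℝ, ⌊(2 : ℝ) ^ (i + k) * a⌋ = ⌊(2 : ℝ) ^ (i + k) * b⌋ →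
      ⌊(2 : ℝ) ^ i * a⌋ ≤ ⌊(2 : ℝ) ^ i * b⌋ := by
    intro a b hab
    rw [Int.le_floor]
    have hk : (0 : ℝ) < 2 ^ k := by positivity
    have h1 : ((⌊(2 : ℝ) ^ i * a⌋ * 2 ^ k : ℤ) : ℝ) ≤ 2 ^ (i + k) * a := by
      push_cast
      have := mul_le_mul_of_nonneg_right (Int.floor_le ((2 : ℝ) ^ i * a)) hk.le
      calc (⌊(2 : ℝ) ^ i * a⌋ : ℝ) * 2 ^ k ≤ 2 ^ i * a * 2 ^ k := this
        _ = 2 ^ (i + k) * a := by rw [pow_add]; ring
    have h2 := Int.le_floor.mpr h1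
    rw [hab] at h2
    have h3 := Int.le_floor.mp h2
    push_cast at h3
    have h4 : (⌊(2 : ℝ) ^ i * a⌋ : ℝ) * 2 ^ k ≤ 2 ^ i * b * 2 ^ k := by
      calc (⌊(2 : ℝ) ^ i * a⌋ : ℝ) * 2 ^ k ≤ 2 ^ (i + k) * b := h3
        _ = 2 ^ i * b * 2 ^ k := by rw [pow_add]; ring
    exact le_of_mul_le_mul_right h4 hk
  funext l
  have hl := congrFun h l
  exact le_antisymm (key _ _ hl) (key _ _ hl.symm)

/-- Data processing: if `V` determines `X` and `W'` determines `W` then the information of `X` on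
`W'` given `W` is at most the information of `V` on `W'` given `W`. -/
lemma info_le {Ω S T U V : Type} [Fintype Ω] {p : Ω → ℝ} (hp : ∀ ω, 0 ≤ p ω) {Y : Ω → S}
    {X : Ω → T} {W : Ω → U} {W' : Ω → V} (hX : Det p Y X) (hW : Det p W' W) :
    CH p X W - CH p X W' ≤ CH p Y W - CH p Y W' := by
  have e : ∀ {R : Type} (A : Ω → R), CH p Y A = CH p X A + CH p Y (fun ω => (X ω, A ω)) := by
    intro R A
    rw [← CH_chain hp]
    refine CH_congr hp ?_ ?_ (fun _ _ _ _ h => h) (fun _ _ _ _ h => h)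
    · intro ω ω' a b h
      have h1 := (Prod.ext_iff.mp h).1
      exact Prod.ext h1 (hX ω ω' a b h1)
    · intro ω ω' _ _ h
      exact (Prod.ext_iff.mp (Prod.ext_iff.mp h).1).1
  have e1 := e W
  have e2 := e W'
  have e3 : CH p Y (fun ω => (X ω, W' ω)) ≤ CH p Y (fun ω => (X ω, W ω)) := by
    refine CH_mono_cond hp ?_
    intro ω ω' a b h
    exact Prod.ext (Prod.ext_iff.mp h).1 (hW ω ω' a b (Prod.ext_iff.mp h).2)
  linarith

end SUT

/-- The informations of the differences on the positions add up. -/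
theorem sut_thm (hMUL : MULStmt) : SUTStmt := by
  intro m Ω ζ _ p u d Z hp k N t₀ t
  obtain ⟨hq, -, hm⟩ := hMUL Ω (((Fin m → ℤ) × (Fin m → ℤ)) × ζ) N p
    (fun r : Fin N => bb u d Z k r) hp
  have hq0 : ∀ w, 0 ≤ PP p u d Z k N w := hq.nonneg
  set A : ℕ → Ω × (Fin N → Ω) → (Fin m → ℤ) × ζ :=
    fun r w => (Xp u d t (r * k) w.1, Z w.1) with hA
  have hAdet : ∀ r, Det (PP p u d Z k N) (A (r + 1)) (A r) := by
    intro r ω ω' _ _ h
    simp only [hA, Prod.mk.injEq] at h ⊢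
    exact ⟨SUT.fl_det (Nat.mul_le_mul_right k (Nat.le_succ r)) h.1, h.2⟩
  have hstep : ∀ r : Fin N, TT p u d Z k r t₀ t ≤
      CH (PP p u d Z k N) (zv u d t₀ k N) (A r) -
        CH (PP p u d Z k N) (zv u d t₀ k N) (A ((r : ℕ) + 1)) := by
    intro r
    have h1 : CH (dbl p (bb u d Z k r)) (zz u d t₀ (((r : ℕ) + 1) * k))
        (fun w => (Xp u d t ((r : ℕ) * k) w.1, Z w.1)) =
        CH (PP p u d Z k N) (fun w => zv u d t₀ k N w r) (A r) :=
      ((hm r).CH (zz u d t₀ (((r : ℕ) + 1) * k))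
        (fun w => (Xp u d t ((r : ℕ) * k) w.1, Z w.1))).symm
    have h2 : CH (dbl p (bb u d Z k r)) (zz u d t₀ (((r : ℕ) + 1) * k))
        (fun w => (Xp u d t (((r : ℕ) + 1) * k) w.1, Z w.1)) =
        CH (PP p u d Z k N) (fun w => zv u d t₀ k N w r) (A ((r : ℕ) + 1)) :=
      ((hm r).CH (zz u d t₀ (((r : ℕ) + 1) * k))
        (fun w => (Xp u d t (((r : ℕ) + 1) * k) w.1, Z w.1))).symm
    unfold TT
    rw [h1, h2]
    exact SUT.info_le hq0 (fun ω ω' _ _ h => congrFun h r) (hAdet r)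
  have hsum : ∑ r ∈ Finset.range N, TT p u d Z k r t₀ t ≤
      ∑ r ∈ Finset.range N, (CH (PP p u d Z k N) (zv u d t₀ k N) (A r) -
        CH (PP p u d Z k N) (zv u d t₀ k N) (A (r + 1))) :=
    Finset.sum_le_sum fun r hr => hstep ⟨r, Finset.mem_range.mp hr⟩
  have htel := Finset.sum_range_sub' (fun r => CH (PP p u d Z k N) (zv u d t₀ k N) (A r)) N
  have hfst : CH (PP p u d Z k N) (zv u d t₀ k N) (A 0) ≤
      CH (PP p u d Z k N) (zv u d t₀ k N) (fun w => Z w.1) :=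
    CH_mono_cond hq0 (fun ω ω' _ _ h => (Prod.ext_iff.mp h).2)
  have hlst : CH (PP p u d Z k N) (zv u d t₀ k N) (fun w => w.1) ≤
      CH (PP p u d Z k N) (zv u d t₀ k N) (A N) := by
    refine CH_mono_cond hq0 (fun ω ω' _ _ h => ?_)
    simp only [hA] at h ⊢
    rw [h]
  unfold Iw
  linarith

end Pool.STK
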