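import Pool.Agent.H90.STK.Stmts

/-!
# Sticky families of lines: conservation of differences, first inequality
-/

set_option autoImplicit false

namespace Pool.STK

open Finset Real
open Pool.Agent.H49.Ent Pool.Agent.H32.Dense

namespace CN1

/-- Nested floors. -/
lemma fl_det {m i j : ℕ} (hij : i ≤ j) {x y : Fin m → ℝ} (h : fl j x = fl j y) :
    fl i x = fl i y := by
  obtain ⟨k, rfl⟩ := Nat.exists_eq_add_of_le hij
  have key : ∀ a b : ℝ, ⌊(2 : ℝ) ^ (i + k) * a⌋ = ⌊(2 : ℝ) ^ (i + k) * b⌋ →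
      ⌊(2 : ℝ) ^ i * a⌋ ≤ ⌊(2 : ℝ) ^ i * b⌋ := by
    intro a b hab
    rw [Int.le_floor]
    have hk : (0 : ℝ) < 2 ^ k := by positivity
    have h1 : ((⌊(2 : ℝ) ^ i * a⌋ * 2 ^ k : ℤ) : ℝ) ≤ 2 ^ (i + k) * a := by
      push_cast
      have := mul_le_mul_of_nonneg_right (Int.floor_le ((2 : ℝ) ^ i * a)) hk.le
      calc (⌊(2 : ℝ) ^ i * a⌋ : ℝ) * 2 ^ k ≤ 2 ^ i * a * 2 ^ k := this
        _ = 2 ^ (i + k) * a := by rw [pow_add]; ring
    have h2 := Int.le_floor.mpr h1
    rw [hab] at h2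
    have h3 := Int.le_floor.mp h2
    push_cast at h3
    have h4 : (⌊(2 : ℝ) ^ i * a⌋ : ℝ) * 2 ^ k ≤ 2 ^ i * b * 2 ^ k := by
      calc (⌊(2 : ℝ) ^ i * a⌋ : ℝ) * 2 ^ k ≤ 2 ^ (i + k) * b := h3
        _ = 2 ^ i * b * 2 ^ k := by rw [pow_add]; ring
    exact le_of_mul_le_mul_right h4 hk
  funext l
  have hl := congrFun h l
  exact le_antisymm (key _ _ hl) (key _ _ hl.symm)

/-- Equal floors: the numbers differ by less than one. -/
lemma abs_lt_of_floor {a b : ℝ} (h : ⌊a⌋ = ⌊b⌋) : |a - b| ≤ 1 := by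
  have h1 := Int.floor_le a
  have h2 := Int.lt_floor_add_one a
  have h3 := Int.floor_le b
  have h4 := Int.lt_floor_add_one b
  rw [h] at h1 h2
  rw [abs_le]
  constructor <;> linarith

/-- Close numbers have close floors. -/
lemma floor_sub {a b c : ℝ} (h : |a - b| ≤ c) : |((⌊a⌋ - ⌊b⌋ : ℤ) : ℝ)| ≤ c + 1 := by
  have h1 := Int.floor_le a
  have h2 := Int.lt_floor_add_one a
  have h3 := Int.floor_le b
  have h4 := Int.lt_floor_add_one b
  rw [abs_le] at h ⊢
  push_cast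
  constructor <;> linarith [h.1, h.2]

/-- A logarithm bound. -/
lemma ex_le {m : ℕ} {Ω : Type} [Fintype Ω] {p : Ω → ℝ} (h1 : ∑ ω, p ω = 1) {L : ℝ}
    (hL0 : 0 ≤ L) (hL : 2 * L + 1 ≤ 100) :
    (m : ℝ) * Ex p (fun _ => Real.log (2 * L + 1)) ≤ cc m := by
  rw [Ex_const h1]
  unfold cc
  refine mul_le_mul_of_nonneg_left ?_ (by positivity)
  exact Real.log_le_log (by linarith) hL

end CN1

/-- Conservation of differences, first inequality. -/
theorem cn1_thm : CN1Stmt := by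
  intro m Ω ζ _ p u d Z hp k r t₀ t hW
  obtain ⟨h00, h0t, htw, ht1⟩ := hW
  have ht0 : 0 ≤ t := h00.trans h0t
  set q := dbl p (bb u d Z k r) with hq
  have hq0 : ∀ w, 0 ≤ q w := dbl_nonneg hp.nonneg
  have hm1 : Marg q p (fun w => w.1) := dbl_fst hp.nonneg
  have hm2 : Marg q p (fun w => w.2) := dbl_snd hp.nonneg
  have hq1 : ∑ w, q w = 1 := by rw [hm1.sum]; exact hp.sum_one
  -- support
  have hsup : ∀ w, 0 < q w → Fl u (r * k) w.1 = Fl u (r * k) w.2 ∧
      Fl d (r * k) w.1 = Fl d (r * k) w.2 ∧ Z w.1 = Z w.2 := by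
    intro w hw
    have h := dbl_eq hp.nonneg hw
    unfold bb Ln at h
    simp only [Prod.mk.injEq] at h
    exact ⟨h.1.1, h.1.2, h.2⟩
  have hd : ∀ w, 0 < q w → ∀ i, |2 ^ (r * k) * (d w.2 i - d w.1 i)| ≤ 1 := by
    intro w hw i
    have h := congrFun (hsup w hw).2.1 i
    have h1 := CN1.abs_lt_of_floor h
    rw [abs_sub_comm] at h1
    rw [mul_sub]
    exact h1
  have hu : ∀ w, 0 < q w → ∀ i, |2 ^ (r * k) * (u w.2 i - u w.1 i)| ≤ 1 := by
    intro w hw i
    have h := congrFun (hsup w hw).1 i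
    have h1 := CN1.abs_lt_of_floor h
    rw [abs_sub_comm] at h1
    rw [mul_sub]
    exact h1
  -- step 1
  have s1 : CH q (zz u d t₀ ((r + 1) * k))
      (fun w => (Xp u d t ((r + 1) * k) w.1, Z w.1)) ≤
      CH q (fun w => Xp u d t ((r + 1) * k) w.2)
        (fun w => (Xp u d t ((r + 1) * k) w.1, Z w.1)) + cc m := by
    refine (CH_le_add hq0 _ (fun w => Xp u d t ((r + 1) * k) w.2) _).trans
      (add_le_add (le_refl _) ?_)
    -- the error in one coordinate
    have herr : ∀ w, 0 < q w → ∀ i, |((zz u d t₀ ((r + 1) * k) w i : ℤ) : ℝ) -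
        (((Xp u d t ((r + 1) * k) w.2 i : ℤ) : ℝ) - ((Xp u d t ((r + 1) * k) w.1 i : ℤ) : ℝ))| ≤
        3 := by
      intro w hw i
      have e1 : |2 ^ ((r + 1) * k) * (pt u d t₀ w.2 i - pt u d t₀ w.1 i) -
          (2 ^ ((r + 1) * k) * pt u d t w.2 i - 2 ^ ((r + 1) * k) * pt u d t w.1 i)| ≤ 1 := by
        have e2 : 2 ^ ((r + 1) * k) * (pt u d t₀ w.2 i - pt u d t₀ w.1 i) -
            (2 ^ ((r + 1) * k) * pt u d t w.2 i - 2 ^ ((r + 1) * k) * pt u d t w.1 i) =
            -((t - t₀) * 2 ^ k) * (2 ^ (r * k) * (d w.2 i - d w.1 i)) := by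
          unfold pt
          rw [Nat.add_mul, one_mul, pow_add]
          ring
        rw [e2, abs_mul, abs_neg]
        have e3 : |(t - t₀) * 2 ^ k| ≤ 1 := by
          rw [abs_of_nonneg (mul_nonneg (by linarith) (by positivity))]
          have hk : (0 : ℝ) < 2 ^ k := by positivity
          have e4 : (t - t₀) * 2 ^ k ≤ (2 ^ k)⁻¹ * 2 ^ k :=
            mul_le_mul_of_nonneg_right (by linarith) hk.le
          rwa [inv_mul_cancel₀ hk.ne'] at e4
        calc |(t - t₀) * 2 ^ k| * |2 ^ (r * k) * (d w.2 i - d w.1 i)| ≤ 1 * 1 :=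
              mul_le_mul e3 (hd w hw i) (abs_nonneg _) zero_le_one
          _ = 1 := one_mul 1
      have a1 := Int.floor_le (2 ^ ((r + 1) * k) * (pt u d t₀ w.2 i - pt u d t₀ w.1 i))
      have a2 := Int.lt_floor_add_one (2 ^ ((r + 1) * k) * (pt u d t₀ w.2 i - pt u d t₀ w.1 i))
      have a3 := Int.floor_le (2 ^ ((r + 1) * k) * pt u d t w.2 i)
      have a4 := Int.lt_floor_add_one (2 ^ ((r + 1) * k) * pt u d t w.2 i)
      have a5 := Int.floor_le (2 ^ ((r + 1) * k) * pt u d t w.1 i)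
      have a6 := Int.lt_floor_add_one (2 ^ ((r + 1) * k) * pt u d t w.1 i)
      unfold zz Xp fl rd
      rw [abs_le] at e1 ⊢
      constructor <;> linarith [e1.1, e1.2]
    refine (CH_le_vec hq0 hq1 _ _ (fun _ => (6 : ℝ)) ?_).trans
      (CN1.ex_le hq1 (by norm_num) (by norm_num))
    intro w w' hw hw' hww i
    simp only [Prod.mk.injEq] at hww
    have b1 := herr w hw i
    have b2 := herr w' hw' i
    rw [hww.1, hww.2.1] at b1
    rw [abs_le] at b1 b2 ⊢
    push_cast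
    constructor <;> linarith [b1.1, b1.2, b2.1, b2.2]
  -- step 2
  have s2 : CH q (fun w => Xp u d t ((r + 1) * k) w.2)
        (fun w => (Xp u d t ((r + 1) * k) w.1, Z w.1)) ≤
      CH q (fun w => Xp u d t ((r + 1) * k) w.2)
        (fun w => (Xp u d t (r * k) w.1, Z w.1)) := by
    refine CH_mono_cond hq0 ?_
    intro w w' _ _ h
    simp only [Prod.mk.injEq] at h ⊢
    exact ⟨CN1.fl_det (Nat.mul_le_mul_right k (Nat.le_succ r)) h.1, h.2⟩
  -- step 3
  have s3 : CH q (fun w => Xp u d t ((r + 1) * k) w.2)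
        (fun w => (Xp u d t (r * k) w.1, Z w.1)) ≤
      CH q (fun w => Xp u d t ((r + 1) * k) w.2)
        (fun w => (Xp u d t (r * k) w.2, Z w.2)) + cc m := by
    refine (CH_le_add hq0 _ (fun w => Xp u d t (r * k) w.2) _).trans ?_
    rw [add_comm]
    refine add_le_add ?_ ?_
    · refine CH_mono_cond hq0 ?_
      intro w w' hw hw' h
      simp only [Prod.mk.injEq] at h ⊢
      refine ⟨h.1, ?_⟩
      rw [← (hsup w hw).2.2, ← (hsup w' hw').2.2]
      exact h.2.2
    · have herr : ∀ w, 0 < q w → ∀ i,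
          |((Xp u d t (r * k) w.2 i - Xp u d t (r * k) w.1 i : ℤ) : ℝ)| ≤ 3 := by
        intro w hw i
        have e1 : |2 ^ (r * k) * pt u d t w.2 i - 2 ^ (r * k) * pt u d t w.1 i| ≤ 2 := by
          have e2 : 2 ^ (r * k) * pt u d t w.2 i - 2 ^ (r * k) * pt u d t w.1 i =
              2 ^ (r * k) * (u w.2 i - u w.1 i) + t * (2 ^ (r * k) * (d w.2 i - d w.1 i)) := by
            unfold pt
            ring
          rw [e2]
          refine (abs_add_le _ _).trans ?_
          rw [abs_mul t, abs_of_nonneg ht0]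
          have e3 : t * |2 ^ (r * k) * (d w.2 i - d w.1 i)| ≤ 1 * 1 :=
            mul_le_mul ht1 (hd w hw i) (abs_nonneg _) zero_le_one
          linarith [hu w hw i]
        have e4 := CN1.floor_sub e1
        unfold Xp fl rd
        linarith
      refine (CH_le_vec hq0 hq1 _ _ (fun _ => (6 : ℝ)) ?_).trans
        (CN1.ex_le hq1 (by norm_num) (by norm_num))
      intro w w' hw hw' hww i
      simp only [Prod.mk.injEq] at hww
      have b1 := herr w hw i
      have b2 := herr w' hw' i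
      rw [hww.1] at b1
      rw [abs_le] at b1 b2 ⊢
      push_cast at b1 b2 ⊢
      constructor <;> linarith [b1.1, b1.2, b2.1, b2.2]
  -- step 4
  have s4 : CH q (fun w => Xp u d t ((r + 1) * k) w.2)
        (fun w => (Xp u d t (r * k) w.2, Z w.2)) =
      CH p (Xp u d t ((r + 1) * k)) (fun ω => (Xp u d t (r * k) ω, Z ω)) :=
    hm2.CH (Xp u d t ((r + 1) * k)) (fun ω => (Xp u d t (r * k) ω, Z ω))
  linarith

end Pool.STK
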